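import Pool.Agent.TropProf.Dens

/-!
The tropicalization of a graph profile need not be a polyhedral cone.
-/

open Finset Filter Topology

namespace Pool.Agent.Results.MP_df81ac_co.NotPolyhedral

/-- The homomorphism density `t(H;G)`: the probability that a uniformly random map
`V(H) → V(G)` sends every edge of `H` to an edge of `G`. -/
noncomputable def homDensity {V W : Type} (H : SimpleGraph V) (G : SimpleGraph W) : ℝ :=
  (Nat.card (H →g G) : ℝ) / (Nat.card (V → W) : ℝ)

/-- The graph profile of the finite collection `C 0, ..., C (s-1)` of finite graphs: the closure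
of the set of density vectors, over all finite graphs with at least one vertex. -/
def profile {s : ℕ} {n : Fin s → ℕ} (C : (i : Fin s) → SimpleGraph (Fin (n i))) : Set (Fin s → ℝ) :=
  closure {x | ∃ (N : ℕ) (G : SimpleGraph (Fin (N + 1))), ∀ i, x i = homDensity (C i) G}

/-- Coordinatewise natural logarithm of the points of `S` with all coordinates positive. -/
def logImage {s : ℕ} (S : Set (Fin s → ℝ)) : Set (Fin s → ℝ) :=
  {y | ∃ x ∈ S, (∀ i, 0 < x i) ∧ ∀ i, y i = Real.log (x i)}

/-- The conical hull: all finite combinations with nonnegative coefficients. -/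
def coneHull {s : ℕ} (S : Set (Fin s → ℝ)) : Set (Fin s → ℝ) :=
  {y | ∃ (k : ℕ) (c : Fin k → ℝ) (x : Fin k → (Fin s → ℝ)),
    (∀ j, 0 ≤ c j) ∧ (∀ j, x j ∈ S) ∧ y = ∑ j, c j • x j}

/-- The tropicalization of the graph profile: the closure of the conical hull of its logarithm. -/
def trop {s : ℕ} {n : Fin s → ℕ} (C : (i : Fin s) → SimpleGraph (Fin (n i))) : Set (Fin s → ℝ) :=
  closure (coneHull (logImage (profile C)))

/-- A polyhedral cone: an intersection of finitely many closed half-spaces `{y | a · y ≥ 0}`. -/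
def IsPolyhedralCone {s : ℕ} (K : Set (Fin s → ℝ)) : Prop :=
  ∃ (m : ℕ) (a : Fin m → Fin s → ℝ), K = {y | ∀ k, 0 ≤ ∑ i, a k i * y i}

open TropProf

theorem homDensity_congr {V V' W W' : Type} (e : V ≃ V') (f : W ≃ W') (H : SimpleGraph V)
    (H' : SimpleGraph V') (G : SimpleGraph W) (G' : SimpleGraph W')
    (hH : ∀ u v, H.Adj u v ↔ H'.Adj (e u) (e v)) (hG : ∀ u v, G.Adj u v ↔ G'.Adj (f u) (f v)) :
    homDensity H G = homDensity H' G' := by
  unfold homDensity
  rw [Nat.card_congr (Equiv.arrowCongr e f)]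
  congr 2
  refine Nat.card_congr ⟨fun φ => ⟨fun v => f (φ (e.symm v)), ?_⟩, fun ψ => ⟨fun v => f.symm (ψ (e v)), ?_⟩,
    ?_, ?_⟩
  · intro u v h
    rw [← hG]
    apply φ.map_rel
    show H.Adj _ _
    rw [hH, e.apply_symm_apply, e.apply_symm_apply]
    exact h
  · intro u v h
    rw [hG, f.apply_symm_apply, f.apply_symm_apply]
    apply ψ.map_rel
    exact (hH u v).mp h
  · intro φ
    ext v
    simp
  · intro ψ
    ext v
    simp

/-- the number of vertices of the twelve graphs -/
noncomputable def nn (i : Fin 12) : ℕ := Nat.card (GV (Fin 8) (gs i))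

noncomputable def enum (i : Fin 12) : GV (Fin 8) (gs i) ≃ Fin (nn i) := Finite.equivFin _

/-- the twelve graphs on `Fin (nn i)` -/
noncomputable def CC (i : Fin 12) : SimpleGraph (Fin (nn i)) := (CG i).comap (enum i).symm

theorem CC_adj (i : Fin 12) (u v : GV (Fin 8) (gs i)) :
    (CG i).Adj u v ↔ (CC i).Adj (enum i u) (enum i v) := by
  unfold CC
  simp

theorem CC_connected (i : Fin 12) : (CC i).Connected :=
  (SimpleGraph.Iso.connected_iff (SimpleGraph.Iso.comap (enum i).symm (CG i))).mpr (CG_connected i)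

theorem homDensity_CC {W : Type} [Finite W] (G : SimpleGraph W) (i : Fin 12) :
    homDensity (CC i) G = Y (EG G) i / (Nat.card W : ℝ) ^ nn i := by
  rw [← homDensity_congr (enum i) (Equiv.refl W) (CG i) (CC i) G G (CC_adj i) (fun _ _ => Iff.rfl)]
  unfold homDensity
  rw [card_CG, Nat.card_fun]
  push_cast
  rfl

theorem log_dens {W : Type} [Finite W] [Nonempty W] (G : SimpleGraph W)
    (hpos : ∀ i, 0 < homDensity (CC i) G) :
    (fun i => Real.log (homDensity (CC i) G))
      = (fun i => Real.log (Y (EG G) i)) - Real.log (Nat.card W) • vv := by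
  funext i
  have hW : (0:ℝ) < Nat.card W := by exact_mod_cast Nat.card_pos
  have hY : Y (EG G) i ≠ 0 := by
    intro h
    have := hpos i
    rw [homDensity_CC, h] at this
    simp at this
  rw [homDensity_CC, Real.log_div hY (pow_pos hW _).ne', Real.log_pow]
  simp only [Pi.sub_apply, Pi.smul_apply, smul_eq_mul]
  unfold vv nn
  ring

theorem eval_functional {W : Type} [Finite W] [Nonempty W] (G : SimpleGraph W)
    (hpos : ∀ i, 0 < homDensity (CC i) G) (l : (Fin 12 → ℝ) →ₗ[ℝ] ℝ) (hl : l vv = 0) :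
    l (fun i => Real.log (homDensity (CC i) G)) = l (fun i => Real.log (Y (EG G) i)) := by
  rw [log_dens G hpos, map_sub, map_smul, hl]
  simp

/-- valid linear inequalities pass to the tropicalization -/
theorem le_on_trop (l : (Fin 12 → ℝ) →ₗ[ℝ] ℝ)
    (h : ∀ (N : ℕ) (G : SimpleGraph (Fin (N + 1))), (∀ i, 0 < homDensity (CC i) G) →
      0 ≤ l (fun i => Real.log (homDensity (CC i) G))) :
    ∀ y ∈ trop CC, 0 ≤ l y := by
  have hcont : Continuous l := l.continuous_of_finiteDimensional
  -- on the logarithm of the profile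
  have h1 : ∀ y ∈ logImage (profile CC), 0 ≤ l y := by
    rintro y ⟨x, hx, hxpos, hy⟩
    have hy' : y = fun i => Real.log (x i) := funext hy
    rw [hy']
    by_contra hneg
    push Not at hneg
    have hc : ContinuousAt (fun z : Fin 12 → ℝ => l (fun i => Real.log (z i))) x := by
      apply hcont.continuousAt.comp
      rw [continuousAt_pi]
      intro i
      exact (continuous_apply i).continuousAt.log (hxpos i).ne'
    have hev : ∀ᶠ z in 𝓝 x, l (fun i => Real.log (z i)) < 0 := hc.eventually (gt_mem_nhds hneg)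
    have hev2 : ∀ᶠ z in 𝓝 x, ∀ i, 0 < z i := by
      rw [Filter.eventually_all]
      intro i
      exact (continuous_apply i).continuousAt.eventually (lt_mem_nhds (hxpos i))
    obtain ⟨z, hz, ⟨N, G, hG⟩⟩ := mem_closure_iff_nhds.mp hx _ (hev.and hev2)
    obtain ⟨hz1, hz2⟩ := hz
    have hzeq : z = fun i => homDensity (CC i) G := funext hG
    rw [hzeq] at hz1 hz2
    exact absurd (h N G hz2) (not_le.mpr hz1)
  have h2 : ∀ y ∈ coneHull (logImage (profile CC)), 0 ≤ l y := by
    rintro y ⟨k, c, x, hc, hx, rfl⟩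
    rw [map_sum]
    refine Finset.sum_nonneg (fun j _ => ?_)
    rw [map_smul]
    exact mul_nonneg (hc j) (h1 _ (hx j))
  intro y hy
  have hclosed : IsClosed {y : Fin 12 → ℝ | 0 ≤ l y} := isClosed_le continuous_const hcont
  exact closure_minimal (fun y hy => h2 y hy) hclosed hy

/-- logarithms of density vectors belong to the tropicalization -/
theorem mem_trop {W : Type} [Finite W] [Nonempty W] (G : SimpleGraph W)
    (hpos : ∀ i, 0 < homDensity (CC i) G) :
    (fun i => Real.log (homDensity (CC i) G)) ∈ trop CC := by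
  apply subset_closure
  refine ⟨1, fun _ => 1, fun _ => (fun i => Real.log (homDensity (CC i) G)), fun _ => zero_le_one,
    fun _ => ?_, by simp⟩
  refine ⟨fun i => homDensity (CC i) G, ?_, hpos, fun _ => rfl⟩
  apply subset_closure
  obtain ⟨N, hN⟩ : ∃ N, Nat.card W = N + 1 := ⟨Nat.card W - 1, by
    have : 0 < Nat.card W := Nat.card_pos
    omega⟩
  let f : W ≃ Fin (N + 1) := (Finite.equivFin W).trans (finCongr hN)
  refine ⟨N, G.comap f.symm, fun i => ?_⟩
  exact homDensity_congr (Equiv.refl _) f (CC i) (CC i) G _ (fun _ _ => Iff.rfl) (fun u v => by simp)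

theorem base {W : Type} [Finite W] (G : SimpleGraph W) (hpos : ∀ i, 0 < homDensity (CC i) G) :
    0 ≤ JL (fun i => Real.log (Y (EG G) i)) ∧
    0 ≤ lin cT (fun i => Real.log (Y (EG G) i))
      + (∑ s, |cT s|) * C0 * JL (fun i => Real.log (Y (EG G) i)) ∧
    ∀ k : ℕ, 0 ≤ k * lin cP (fun i => Real.log (Y (EG G) i)) + lin cQ (fun i => Real.log (Y (EG G) i))
    + (k * (k - 1) / 2) * lin cT (fun i => Real.log (Y (EG G) i))
    + (k * (∑ s, |cP s|) + (∑ s, |cQ s|) + |(k * (k - 1) / 2 : ℝ)| * (∑ s, |cT s|)) * C0 *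
      JL (fun i => Real.log (Y (EG G) i)) := by
  have hne : Nonempty (H8 →g G) := by
    by_contra hcon
    rw [not_nonempty_iff] at hcon
    have h0 := hpos 0
    rw [homDensity_CC] at h0
    have : Y (EG G) 0 = 0 := by
      unfold Y
      apply Finset.sum_eq_zero
      intro r _
      exact (hcon.false r).elim
    rw [this] at h0
    simp at h0
  exact valid (EG G) (fun φ : (H8 →g G) => φ (sp 0)) (fun φ : (H8 →g G) => φ (sp 1)) rfl rfl

theorem trop_J : ∀ y ∈ trop CC, 0 ≤ JL y := by
  apply le_on_trop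
  intro N G hpos
  rw [eval_functional G hpos JL JL_vv]
  exact (base G hpos).1

theorem trop_T : ∀ y ∈ trop CC, 0 ≤ lin cT y + (∑ s, |cT s|) * C0 * JL y := by
  have h := le_on_trop (lin cT + ((∑ s, |cT s|) * C0) • JL) (by
    intro N G hpos
    have hl : (lin cT + ((∑ s, |cT s|) * C0) • JL) vv = 0 := by
      rw [LinearMap.add_apply, LinearMap.smul_apply, lin_cT_vv, JL_vv, smul_zero, add_zero]
    rw [eval_functional G hpos _ hl, LinearMap.add_apply, LinearMap.smul_apply, smul_eq_mul]
    exact (base G hpos).2.1)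
  intro y hy
  have := h y hy
  rwa [LinearMap.add_apply, LinearMap.smul_apply, smul_eq_mul] at this

theorem trop_k (k : ℕ) : ∀ y ∈ trop CC,
    0 ≤ k * lin cP y + lin cQ y + (k * (k - 1) / 2) * lin cT y
      + (k * (∑ s, |cP s|) + (∑ s, |cQ s|) + |(k * (k - 1) / 2 : ℝ)| * (∑ s, |cT s|)) * C0 * JL y := by
  generalize hc1 : ((k : ℝ) * (k - 1) / 2) = c1
  generalize hc2 : (k * (∑ s, |cP s|) + (∑ s, |cQ s|) + |c1| * (∑ s, |cT s|)) * C0 = c2
  have h := le_on_trop ((k : ℝ) • lin cP + lin cQ + c1 • lin cT + c2 • JL) (by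
    intro N G hpos
    have hl : ((k : ℝ) • lin cP + lin cQ + c1 • lin cT + c2 • JL) vv = 0 := by
      simp only [LinearMap.add_apply, LinearMap.smul_apply, lin_cT_vv, JL_vv, lin_cP_vv, lin_cQ_vv,
        smul_zero, add_zero]
    rw [eval_functional G hpos _ hl]
    simp only [LinearMap.add_apply, LinearMap.smul_apply, smul_eq_mul]
    have := (base G hpos).2.2 k
    rw [hc1, hc2] at this
    exact this)
  intro y hy
  have := h y hy
  simpa only [LinearMap.add_apply, LinearMap.smul_apply, smul_eq_mul] using this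

/-- on the face `JL = 0`, `lin cT = 0` the functional `lin cP` is nonnegative -/
theorem trop_face (y : Fin 12 → ℝ) (hy : y ∈ trop CC) (hJ0 : JL y = 0) (hT0 : lin cT y = 0) :
    0 ≤ lin cP y := by
  by_contra hneg
  push Not at hneg
  obtain ⟨k, hkk⟩ := exists_nat_gt (lin cQ y / (-(lin cP y)))
  have h3 := trop_k k y hy
  rw [hJ0, hT0] at h3
  have h4 : lin cQ y < k * (-(lin cP y)) := by
    rwa [div_lt_iff₀ (by linarith)] at hkk
  linarith

/-- consequence of polyhedrality -/
theorem exists_const (hK : IsPolyhedralCone (trop CC)) :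
    ∃ c M : ℝ, 0 ≤ c ∧ ∀ y ∈ trop CC, 0 ≤ lin cP y + c * (lin cT y + M * JL y) := by
  obtain ⟨m, a, hK⟩ := hK
  let aL : Fin m → ((Fin 12 → ℝ) →ₗ[ℝ] ℝ) := fun k => ∑ i, a k i • prj i
  have haL : ∀ k y, aL k y = ∑ i, a k i * y i := by
    intro k y
    simp only [aL, LinearMap.sum_apply, LinearMap.smul_apply, prj_apply, smul_eq_mul]
  have memK : ∀ y, y ∈ trop CC ↔ ∀ k, 0 ≤ aL k y := by
    intro y
    rw [hK]
    simp only [haL]
    exact Iff.rfl
  obtain ⟨c, hc0, hc⟩ := poly_face aL (lin cP) (lin cT + ((∑ s, |cT s|) * C0 + 1) • JL) (by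
    intro y hy
    have hyK := (memK y).mpr hy
    have h1 := trop_T y hyK
    have h2 := trop_J y hyK
    rw [LinearMap.add_apply, LinearMap.smul_apply, smul_eq_mul]
    linarith) (by
    intro y hy hTy
    have hyK := (memK y).mpr hy
    rw [LinearMap.add_apply, LinearMap.smul_apply, smul_eq_mul] at hTy
    have h1 := trop_T y hyK
    have h2 := trop_J y hyK
    have hJ0 : JL y = 0 := by linarith
    have hT0 : lin cT y = 0 := by
      rw [hJ0] at hTy
      linarith
    exact trop_face y hyK hJ0 hT0)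
  refine ⟨c, (∑ s, |cT s|) * C0 + 1, hc0, fun y hy => ?_⟩
  have := hc y ((memK y).mp hy)
  rwa [LinearMap.add_apply, LinearMap.smul_apply, smul_eq_mul] at this

/-- points of the tropicalization given by the systems of permutations -/
theorem point {R : Type} [Fintype R] [Nonempty R] (E : Fin 4 → Setoid R)
    (hJ : JL (fun i => Real.log (Y E i)) = 0) : ∃ y ∈ trop CC, JL y = 0 ∧
      lin cP y = lin cP (fun i => Real.log (Y E i)) ∧ lin cT y = lin cT (fun i => Real.log (Y E i)) := by
  have hposY : ∀ i, 0 < Y E i := by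
    intro i
    unfold Y
    exact Finset.sum_pos (fun r _ => Finset.prod_pos (fun j _ => dg_pos _ _)) Finset.univ_nonempty
  have hposD : ∀ i, 0 < homDensity (CC i) (RG E) := by
    intro i
    rw [homDensity_CC, Y_RG]
    have : (0:ℝ) < Nat.card (Fin 8 × Set R) := by exact_mod_cast Nat.card_pos
    exact div_pos (hposY i) (pow_pos this _)
  have hY : (fun i => Real.log (Y (EG (RG E)) i)) = fun i => Real.log (Y E i) := by
    funext i
    rw [Y_RG]
  refine ⟨_, mem_trop (RG E) hposD, ?_, ?_, ?_⟩
  · rw [eval_functional (RG E) hposD _ JL_vv, hY, hJ]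
  · rw [eval_functional (RG E) hposD _ lin_cP_vv, hY]
  · rw [eval_functional (RG E) hposD _ lin_cT_vv, hY]

theorem not_polyhedral : ¬ IsPolyhedralCone (trop CC) := by
  intro hK
  obtain ⟨c, M, hc0, hc⟩ := exists_const hK
  obtain ⟨n, hn⟩ := exists_path c hc0
  obtain ⟨R, _, _, E, hJE, hL⟩ := exists_system (mp n) (Fp n) c hn
  obtain ⟨y, hy, hJ, hP, hT⟩ := point E hJE
  have hfin := hc y hy
  rw [hJ, hP, hT, mul_zero, add_zero] at hfin
  exact absurd hL (not_lt.mpr hfin)

/-- **Negative answer to Q1.**  There is a finite collection of pairwise non-isomorphic connected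
finite graphs for which the tropicalization of the graph profile is not a polyhedral cone. -/
theorem result : ∃ (s : ℕ) (n : Fin s → ℕ) (C : (i : Fin s) → SimpleGraph (Fin (n i))),
    (∀ i, (C i).Connected) ∧ (∀ i j, i ≠ j → IsEmpty (C i ≃g C j)) ∧
    ¬ IsPolyhedralCone (trop C) := by
  refine ⟨12, nn, CC, CC_connected, ?_, not_polyhedral⟩
  intro i j hij
  constructor
  intro e
  apply hij
  apply vv_inj
  unfold vv
  have h := Nat.card_congr e.toEquiv
  simp only [Nat.card_eq_fintype_card, Fintype.card_fin] at h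
  unfold nn at h
  exact_mod_cast h

end Pool.Agent.Results.MP_df81ac_co.NotPolyhedral
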